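import Mathlib

/-!
# Energy estimates for lazy averaging operators on infinite transitive `G`-sets
-/

set_option autoImplicit false

namespace Pool.Agent.TH96.CC

open Finset

variable {G X : Type*} [Group G] [MulAction G X] {k : ℕ}

/-- The averaging operator. -/
noncomputable def P (s : Fin k → G) (f : X → ℝ) (x : X) : ℝ :=
  (∑ i : Fin k, (f x + f ((s i)⁻¹ • x))) / (2 * k)

/-- The energy density. -/
def en (s : Fin k → G) (f : X → ℝ) (p : Fin k × X) : ℝ :=
  (f p.2 - f ((s p.1)⁻¹ • p.2)) ^ 2

/-- Finitely supported probability density. -/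
structure Nice (f : X → ℝ) : Prop where
  fin : (Function.support f).Finite
  nonneg : ∀ x, 0 ≤ f x
  tot : ∑' x, f x = 1

lemma summ {f : X → ℝ} (hf : (Function.support f).Finite) : Summable f :=
  summable_of_hasFiniteSupport hf

lemma fin_shift {f : X → ℝ} (hf : (Function.support f).Finite) (g : G) :
    (Function.support (fun x => f (g • x))).Finite := by
  have : Function.support (fun x => f (g • x)) = (fun x => g • x) ⁻¹' (Function.support f) := rfl
  rw [this]
  exact hf.preimage (MulAction.injective g).injOn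

lemma tsum_shift (f : X → ℝ) (g : G) : ∑' x, f (g • x) = ∑' x, f x :=
  (MulAction.toPerm g).tsum_eq f

lemma fin_P {s : Fin k → G} {f : X → ℝ} (hf : (Function.support f).Finite) :
    (Function.support (P s f)).Finite := by
  refine (hf.union (Set.finite_iUnion fun i : Fin k => fin_shift hf (s i)⁻¹)).subset ?_
  intro x hx
  by_contra hcon
  simp only [Set.mem_union, Function.mem_support, Set.mem_iUnion, not_or, not_exists, not_not] at hcon
  apply hx
  unfold P
  rw [Finset.sum_eq_zero, zero_div]
  intro i _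
  rw [hcon.1, hcon.2 i, add_zero]

lemma nice_P {s : Fin k → G} (hk : 0 < k) {f : X → ℝ} (hf : Nice f) : Nice (P s f) := by
  have hk0 : (0 : ℝ) < k := by exact_mod_cast hk
  refine ⟨fin_P hf.fin, ?_, ?_⟩
  · intro x
    unfold P
    apply div_nonneg _ (by positivity)
    exact Finset.sum_nonneg fun i _ => add_nonneg (hf.nonneg _) (hf.nonneg _)
  · unfold P
    rw [tsum_div_const, Summable.tsum_finsetSum]
    · have : ∀ i ∈ (Finset.univ : Finset (Fin k)),
          ∑' x, (f x + f ((s i)⁻¹ • x)) = 2 := by
        intro i _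
        rw [(summ hf.fin).tsum_add (summ (fin_shift hf.fin _)), tsum_shift, hf.tot]
        norm_num
      rw [Finset.sum_congr rfl this, Finset.sum_const, Finset.card_univ, Fintype.card_fin,
        nsmul_eq_mul]
      field_simp
    · intro i _
      exact (summ hf.fin).add (summ (fin_shift hf.fin _))

lemma fin_sq {f : X → ℝ} (hf : (Function.support f).Finite) :
    (Function.support (fun x => f x ^ 2)).Finite := by
  refine hf.subset ?_
  intro x hx hfx
  apply hx
  show f x ^ 2 = 0
  have : f x = 0 := hfx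
  rw [this]
  norm_num

lemma fin_en (s : Fin k → G) {f : X → ℝ} (hf : (Function.support f).Finite) (i : Fin k) :
    (Function.support (fun x => en s f (i, x))).Finite := by
  refine (hf.union (fin_shift hf (s i)⁻¹)).subset ?_
  intro x hx
  by_contra hcon
  simp only [Set.mem_union, Function.mem_support, not_or, not_not] at hcon
  apply hx
  show (f x - f ((s i)⁻¹ • x)) ^ 2 = 0
  rw [hcon.1, hcon.2]
  norm_num

/-- Decrease of the square sum. -/
lemma sq_P {s : Fin k → G} (hk : 0 < k) {f : X → ℝ} (hf : (Function.support f).Finite) :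
    ∑' x, P s f x ^ 2 ≤ ∑' x, f x ^ 2 - (∑ i : Fin k, ∑' x, en s f (i, x)) / (4 * k) := by
  have hk0 : (0 : ℝ) < k := by exact_mod_cast hk
  have hs2 := summ (fin_sq hf)
  have hs3 : ∀ i : Fin k, Summable (fun x => f ((s i)⁻¹ • x) ^ 2) := fun i =>
    summ (fin_shift (f := fun x => f x ^ 2) (fin_sq hf) (s i)⁻¹)
  have hse : ∀ i : Fin k, Summable (fun x => en s f (i, x)) := fun i => summ (fin_en s hf i)
  have hpt : ∀ x, P s f x ^ 2 ≤
      (∑ i : Fin k, ((f x ^ 2 + f ((s i)⁻¹ • x) ^ 2) / 2 - en s f (i, x) / 4)) / k := by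
    intro x
    have h1 : P s f x = (∑ i : Fin k, (f x + f ((s i)⁻¹ • x)) / 2) / k := by
      unfold P
      rw [← Finset.sum_div]
      field_simp
    rw [h1, div_pow]
    have h2 := sq_sum_le_card_mul_sum_sq (s := (Finset.univ : Finset (Fin k)))
      (f := fun i => (f x + f ((s i)⁻¹ • x)) / 2)
    rw [Finset.card_univ, Fintype.card_fin] at h2
    have h3 : ∑ i : Fin k, ((f x + f ((s i)⁻¹ • x)) / 2) ^ 2 =
        ∑ i : Fin k, ((f x ^ 2 + f ((s i)⁻¹ • x) ^ 2) / 2 - en s f (i, x) / 4) := by
      apply Finset.sum_congr rfl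
      intro i _
      unfold en
      ring
    rw [h3] at h2
    rw [div_le_div_iff₀ (by positivity) hk0]
    nlinarith
  have hsR : Summable (fun x =>
      (∑ i : Fin k, ((f x ^ 2 + f ((s i)⁻¹ • x) ^ 2) / 2 - en s f (i, x) / 4)) / (k : ℝ)) := by
    apply Summable.div_const
    apply summable_sum
    intro i _
    exact ((hs2.add (hs3 i)).div_const _).sub ((hse i).div_const _)
  have h4 := (summ (fin_sq (fin_P (s := s) hf))).tsum_le_tsum hpt hsR
  refine h4.trans (le_of_eq ?_)
  rw [tsum_div_const, Summable.tsum_finsetSum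
    (fun i _ => ((hs2.add (hs3 i)).div_const _).sub ((hse i).div_const _))]
  have h5 : ∀ i ∈ (Finset.univ : Finset (Fin k)),
      ∑' x, ((f x ^ 2 + f ((s i)⁻¹ • x) ^ 2) / 2 - en s f (i, x) / 4) =
        ∑' x, f x ^ 2 - (∑' x, en s f (i, x)) / 4 := by
    intro i _
    rw [((hs2.add (hs3 i)).div_const _).tsum_sub ((hse i).div_const _), tsum_div_const,
      tsum_div_const, hs2.tsum_add (hs3 i), tsum_shift (fun x => f x ^ 2) (s i)⁻¹]
    ring
  rw [Finset.sum_congr rfl h5, Finset.sum_sub_distrib, Finset.sum_const, Finset.card_univ,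
    Fintype.card_fin, nsmul_eq_mul, ← Finset.sum_div]
  field_simp

end Pool.Agent.TH96.CC
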