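import Mathlib
import Pool.Agent.TH96.CC.A

/-!
# A lower bound for the energy on infinite connected `G`-sets
-/

set_option autoImplicit false

namespace Pool.Agent.TH96.CC

open Finset

variable {G X : Type*} [Group G] [MulAction G X] {k : ℕ}

/-- Adjacency in the Schreier graph. -/
def Adj (s : Fin k → G) (x y : X) : Prop := ∃ i, y = (s i)⁻¹ • x ∨ x = (s i)⁻¹ • y

/-- There is a path of length `L` from `x` to `y`. -/
def R (s : Fin k → G) : ℕ → X → X → Prop
  | 0, x, y => x = y
  | L + 1, x, y => ∃ w, Adj s x w ∧ R s L w y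

lemma R.trans {s : Fin k → G} : ∀ {L L' : ℕ} {x y z : X}, R s L x y → R s L' y z →
    R s (L + L') x z := by
  intro L
  induction L with
  | zero =>
    intro L' x y z h1 h2
    have : x = y := h1
    subst this
    simpa using h2
  | succ L ih =>
    intro L' x y z h1 h2
    obtain ⟨w, hw, h3⟩ := h1
    have h4 := ih h3 h2
    have e : L + 1 + L' = (L + L') + 1 := by omega
    rw [e]
    exact ⟨w, hw, h4⟩

lemma reach (s : Fin k → G) (hs : Subgroup.closure (Set.range s) = ⊤) (g : G) :
    ∀ x : X, ∃ L, R s L x (g • x) := by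
  have hg : g ∈ Subgroup.closure (Set.range s) := by rw [hs]; trivial
  induction hg using Subgroup.closure_induction with
  | mem g hg =>
    obtain ⟨i, rfl⟩ := hg
    intro x
    refine ⟨1, s i • x, ⟨i, Or.inr ?_⟩, rfl⟩
    rw [inv_smul_smul]
  | one =>
    intro x
    refine ⟨0, ?_⟩
    show x = (1 : G) • x
    rw [one_smul]
  | mul a b _ _ ha hb =>
    intro x
    obtain ⟨L, h1⟩ := hb x
    obtain ⟨L', h2⟩ := ha (b • x)
    refine ⟨L + L', ?_⟩
    rw [mul_smul]
    exact h1.trans h2
  | inv a _ ha =>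
    intro x
    obtain ⟨L, h1⟩ := ha (a⁻¹ • x)
    rw [smul_inv_smul] at h1
    -- reverse the path
    have rev : ∀ (L : ℕ) (x y : X), R s L x y → R s L y x := by
      intro L
      induction L with
      | zero => intro x y h; exact (show y = x from (show x = y from h).symm)
      | succ L ih =>
        intro x y h
        obtain ⟨w, ⟨i, hi⟩, h2⟩ := h
        have h3 : R s 1 w x := ⟨x, ⟨i, hi.symm⟩, rfl⟩
        have := (ih w y h2).trans h3
        exact this
    exact ⟨L, rev _ _ _ h1⟩

/-- The energy lower bound. -/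
lemma energy_lower (s : Fin k → G) (hs : Subgroup.closure (Set.range s) = ⊤)
    [MulAction.IsPretransitive G X] [Infinite X] {f : X → ℝ} (hf : Nice f) :
    (∑' x, f x ^ 2) ^ 3 / 8 ≤ ∑ i : Fin k, ∑' x, en s f (i, x) := by
  classical
  -- the maximum
  have hne : hf.fin.toFinset.Nonempty := by
    by_contra hcon
    rw [Finset.not_nonempty_iff_eq_empty] at hcon
    have : ∀ x, f x = 0 := by
      intro x
      by_contra hx
      have : x ∈ hf.fin.toFinset := hf.fin.mem_toFinset.2 hx
      rw [hcon] at this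
      simp at this
    have h1 := hf.tot
    simp [this] at h1
  obtain ⟨y, hy, hmax⟩ := Finset.exists_max_image hf.fin.toFinset f hne
  set M := f y with hM
  have hM0 : 0 < M := by
    have h1 : f y ≠ 0 := hf.fin.mem_toFinset.1 hy
    exact lt_of_le_of_ne (hf.nonneg y) (Ne.symm h1)
  have hmax' : ∀ x, f x ≤ M := by
    intro x
    by_cases hx : f x = 0
    · rw [hx]; exact hM0.le
    · exact hmax x (hf.fin.mem_toFinset.2 hx)
  have hu : ∑' x, f x ^ 2 ≤ M := by
    have h1 : ∀ x, f x ^ 2 ≤ M * f x := by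
      intro x
      rw [sq]
      exact mul_le_mul_of_nonneg_right (hmax' x) (hf.nonneg x)
    have h2 := Summable.tsum_le_tsum h1 (summ (fin_sq hf.fin)) ((summ hf.fin).mul_left M)
    rwa [tsum_mul_left, hf.tot, mul_one] at h2
  have hu0 : 0 ≤ ∑' x, f x ^ 2 := tsum_nonneg fun x => sq_nonneg _
  -- the low set
  set Z : Set X := {z | f z < M / 2} with hZ
  have hZne : ∃ z, z ∈ Z := by
    obtain ⟨z, hz⟩ := hf.fin.exists_notMem
    refine ⟨z, ?_⟩
    show f z < M / 2
    have : f z = 0 := by
      by_contra h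
      exact hz h
    rw [this]
    positivity
  have hex : ∀ x : X, ∃ L, ∃ z ∈ Z, R s L x z := by
    intro x
    obtain ⟨z, hz⟩ := hZne
    obtain ⟨g, rfl⟩ := MulAction.exists_smul_eq G x z
    obtain ⟨L, hL⟩ := reach s hs g x
    exact ⟨L, _, hz, hL⟩
  set D : X → ℕ := fun x => Nat.find (hex x) with hD
  have hDspec : ∀ x, ∃ z ∈ Z, R s (D x) x z := fun x => Nat.find_spec (hex x)
  have hDle : ∀ x L z, z ∈ Z → R s L x z → D x ≤ L := fun x L z hz h =>
    Nat.find_min' (hex x) ⟨z, hz, h⟩
  have hnext : ∀ x, ∃ w, 0 < D x → Adj s x w ∧ D w + 1 = D x := by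
    intro x
    rcases Nat.eq_zero_or_pos (D x) with h0 | h0
    · exact ⟨x, fun h => by omega⟩
    · obtain ⟨z, hz, h1⟩ := hDspec x
      obtain ⟨m, hm⟩ : ∃ m, D x = m + 1 := ⟨D x - 1, by omega⟩
      rw [hm] at h1
      obtain ⟨w, hw, h2⟩ := h1
      refine ⟨w, fun _ => ⟨hw, ?_⟩⟩
      have h3 := hDle w m z hz h2
      obtain ⟨z', hz', h4⟩ := hDspec w
      have h5 := hDle x (D w + 1) z' hz' ⟨w, hw, h4⟩
      omega
  choose nxt hnxt using hnext
  set z : ℕ → X := fun j => nxt^[j] y with hz
  set L := D y with hL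
  have hzD : ∀ j, j ≤ L → D (z j) = L - j := by
    intro j
    induction j with
    | zero => intro _; rfl
    | succ j ih =>
      intro hj
      have h1 := ih (by omega)
      have h2 := (hnxt (z j) (by omega)).2
      have h3 : z (j + 1) = nxt (z j) := by
        show nxt^[j + 1] y = nxt (nxt^[j] y)
        rw [Function.iterate_succ_apply']
      rw [h3]
      omega
  have hzadj : ∀ j, j < L → Adj s (z j) (z (j + 1)) := by
    intro j hj
    have h1 := hzD j (by omega)
    have h2 := (hnxt (z j) (by omega)).1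
    have h3 : z (j + 1) = nxt (z j) := by
      show nxt^[j + 1] y = nxt (nxt^[j] y)
      rw [Function.iterate_succ_apply']
    rwa [h3]
  have hD0 : ∀ x, D x = 0 → f x < M / 2 := by
    intro x hx
    obtain ⟨w, hw, h1⟩ := hDspec x
    rw [hx] at h1
    have : x = w := h1
    rw [this]
    exact hw
  have hDpos : ∀ x, 0 < D x → M / 2 ≤ f x := by
    intro x hx
    by_contra h
    push Not at h
    have := hDle x 0 x h rfl
    omega
  have hL0 : 0 < L := by
    by_contra h
    have h1 : D y = 0 := by omega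
    have := hD0 y h1
    linarith
  have hzL : f (z L) < M / 2 := hD0 _ (by rw [hzD L le_rfl]; omega)
  -- few vertices above the level
  have hcount : (L : ℝ) * (M / 2) ≤ 1 := by
    have hinj : Set.InjOn z (Finset.range L : Set ℕ) := by
      intro a ha b hb hab
      have ha' : a < L := by simpa using ha
      have hb' : b < L := by simpa using hb
      have h1 := hzD a ha'.le
      have h2 := hzD b hb'.le
      rw [hab] at h1
      omega
    have h1 : ∑ x ∈ (Finset.range L).image z, f x ≤ ∑' x, f x :=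
      (summ hf.fin).sum_le_tsum _ fun x _ => hf.nonneg x
    rw [Finset.sum_image hinj, hf.tot] at h1
    have h2 : ∑ j ∈ Finset.range L, M / 2 ≤ ∑ j ∈ Finset.range L, f (z j) := by
      apply Finset.sum_le_sum
      intro j hj
      apply hDpos
      have := hzD j (Finset.mem_range.1 hj).le
      have := Finset.mem_range.1 hj
      omega
    rw [Finset.sum_const, Finset.card_range, nsmul_eq_mul] at h2
    linarith
  -- labelled edges
  have hedge : ∀ j, ∃ p : Fin k × X, j < L → en s f p = (f (z j) - f (z (j + 1))) ^ 2 ∧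
      min (D p.2) (D ((s p.1)⁻¹ • p.2)) = L - j - 1 := by
    intro j
    by_cases hj : j < L
    · have h1 := hzD j hj.le
      have h2 := hzD (j + 1) hj
      obtain ⟨i, hi⟩ := hzadj j hj
      rcases hi with hi | hi
      · refine ⟨(i, z j), fun _ => ⟨?_, ?_⟩⟩
        · unfold en
          rw [hi]
        · show min (D (z j)) (D ((s i)⁻¹ • z j)) = L - j - 1
          rw [← hi, h1, h2]
          omega
      · refine ⟨(i, z (j + 1)), fun _ => ⟨?_, ?_⟩⟩
        · unfold en
          show (f (z (j + 1)) - f ((s i)⁻¹ • z (j + 1))) ^ 2 = _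
          rw [← hi]
          ring
        · show min (D (z (j + 1))) (D ((s i)⁻¹ • z (j + 1))) = L - j - 1
          rw [← hi, h1, h2]
          omega
    · have hk : Nonempty (Fin k × X) := by
        obtain ⟨i, _⟩ := hzadj 0 hL0
        exact ⟨(i, y)⟩
      exact ⟨hk.some, fun h => absurd h hj⟩
  choose p hp using hedge
  have hpinj : Set.InjOn p (Finset.range L : Set ℕ) := by
    intro a ha b hb hab
    have ha' : a < L := by simpa using ha
    have hb' : b < L := by simpa using hb
    have h1 := (hp a ha').2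
    have h2 := (hp b hb').2
    rw [hab] at h1
    omega
  -- the total energy as one sum
  have hfinE : (Function.support (en s f)).Finite := by
    have : Function.support (en s f) ⊆
        ⋃ i : Fin k, (fun x => (i, x)) '' Function.support (fun x => en s f (i, x)) := by
      rintro ⟨i, x⟩ hx
      exact Set.mem_iUnion.2 ⟨i, x, hx, rfl⟩
    exact (Set.finite_iUnion fun i => (fin_en s hf.fin i).image _).subset this
  have hsumE : Summable (en s f) := summable_of_hasFiniteSupport hfinE
  have hE : ∑ i : Fin k, ∑' x, en s f (i, x) = ∑' q : Fin k × X, en s f q := by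
    rw [hsumE.tsum_prod' (fun i => summ (fin_en s hf.fin i)), tsum_fintype]
  rw [hE]
  have h1 : ∑ q ∈ (Finset.range L).image p, en s f q ≤ ∑' q, en s f q :=
    hsumE.sum_le_tsum _ fun q _ => by unfold en; exact sq_nonneg _
  rw [Finset.sum_image hpinj] at h1
  have h2 : ∑ j ∈ Finset.range L, en s f (p j) =
      ∑ j ∈ Finset.range L, (f (z j) - f (z (j + 1))) ^ 2 :=
    Finset.sum_congr rfl fun j hj => (hp j (Finset.mem_range.1 hj)).1
  rw [h2] at h1
  have h3 : ∑ j ∈ Finset.range L, (f (z j) - f (z (j + 1))) = f (z 0) - f (z L) :=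
    Finset.sum_range_sub' (fun j => f (z j)) L
  have h4 := sq_sum_le_card_mul_sum_sq (s := Finset.range L)
    (f := fun j => f (z j) - f (z (j + 1)))
  rw [h3, Finset.card_range] at h4
  have hz0 : f (z 0) = M := rfl
  rw [hz0] at h4
  set S := ∑ j ∈ Finset.range L, (f (z j) - f (z (j + 1))) ^ 2 with hS
  have hS0 : 0 ≤ S := Finset.sum_nonneg fun j _ => sq_nonneg _
  have h5 : (M / 2) ^ 2 ≤ (M - f (z L)) ^ 2 := by
    apply pow_le_pow_left₀ (by positivity)
    linarith
  have h6 : (M / 2) ^ 2 * (M / 2) ≤ S := by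
    have h7 : (M / 2) ^ 2 ≤ L * S := h5.trans h4
    calc (M / 2) ^ 2 * (M / 2) ≤ (L * S) * (M / 2) := mul_le_mul_of_nonneg_right h7 (by positivity)
      _ = (L * (M / 2)) * S := by ring
      _ ≤ 1 * S := mul_le_mul_of_nonneg_right hcount hS0
      _ = S := one_mul _
  have h8 : (∑' x, f x ^ 2) ^ 3 ≤ M ^ 3 := pow_le_pow_left₀ hu0 hu 3
  refine le_trans ?_ h1
  refine le_trans ?_ h6
  have h9 : (M / 2) ^ 2 * (M / 2) = M ^ 3 / 8 := by ring
  rw [h9]
  linarith

end Pool.Agent.TH96.CC
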