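import Mathlib
import Pool.Agent.TH96.CC.B

/-!
# Covering balls by cosets of subgroups of infinite index
-/

set_option autoImplicit false

namespace Pool.Agent.TH96.CC

open Finset

section walk

variable {G X : Type*} [Group G] [MulAction G X] {k : ℕ}

open Classical in
/-- The point mass. -/
noncomputable def dl (x0 : X) (x : X) : ℝ := if x = x0 then 1 else 0

/-- The distribution of the lazy walk started at `x0`. -/
noncomputable def F (s : Fin k → G) (n : ℕ) (x0 : X) : X → ℝ := (P s)^[n] (dl x0)

lemma F_succ (s : Fin k → G) (n : ℕ) (x0 : X) : F s (n + 1) x0 = P s (F s n x0) := by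
  unfold F
  rw [Function.iterate_succ_apply']

lemma nice_dl (x0 : X) : Nice (dl x0) := by
  classical
  refine ⟨?_, ?_, ?_⟩
  · refine (Set.finite_singleton x0).subset ?_
    intro x hx
    by_contra h
    apply hx
    unfold dl
    rw [if_neg (by simpa using h)]
  · intro x
    unfold dl
    split_ifs <;> norm_num
  · rw [tsum_eq_single x0]
    · unfold dl
      rw [if_pos rfl]
    · intro x hx
      unfold dl
      rw [if_neg hx]

lemma nice_F {s : Fin k → G} (hk : 0 < k) (n : ℕ) (x0 : X) : Nice (F s n x0) := by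
  induction n with
  | zero => exact nice_dl x0
  | succ n ih => rw [F_succ]; exact nice_P hk ih

/-- Decay of the square sum. -/
lemma decay {s : Fin k → G} (hk : 0 < k) (hs : Subgroup.closure (Set.range s) = ⊤)
    [MulAction.IsPretransitive G X] [Infinite X] (x0 : X) (n : ℕ) :
    (∑' x, F s n x0 x ^ 2) ^ 2 * (1 + n / (16 * k)) ≤ 1 ∧ ∑' x, F s n x0 x ^ 2 ≤ 1 := by
  have hk1 : (1 : ℝ) ≤ k := by exact_mod_cast hk
  induction n with
  | zero =>
    have h1 : ∑' x, F s 0 x0 x ^ 2 = 1 := by
      rw [tsum_eq_single x0]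
      · show dl x0 x0 ^ 2 = 1
        unfold dl
        rw [if_pos rfl]
        norm_num
      · intro x hx
        show dl x0 x ^ 2 = 0
        unfold dl
        rw [if_neg hx]
        norm_num
    rw [h1]
    norm_num
  | succ n ih =>
    obtain ⟨ih1, ih2⟩ := ih
    have hn := nice_F (s := s) hk n x0
    have h1 := sq_P (s := s) hk hn.fin
    have h2 := energy_lower s hs hn
    rw [← F_succ] at h1
    set u := ∑' x, F s n x0 x ^ 2 with hu
    set u' := ∑' x, F s (n + 1) x0 x ^ 2 with hu'
    have hu0 : 0 ≤ u := tsum_nonneg fun x => sq_nonneg _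
    have hu'0 : 0 ≤ u' := tsum_nonneg fun x => sq_nonneg _
    set c : ℝ := 1 / (32 * k) with hc
    have hc0 : 0 < c := by positivity
    have hc1 : c ≤ 1 := by
      rw [hc, div_le_one (by positivity)]
      linarith
    have h3 : u' ≤ u - c * u ^ 3 := by
      have h4 : u ^ 3 / 8 / (4 * k) ≤ (∑ i : Fin k, ∑' x, en s (F s n x0) (i, x)) / (4 * k) :=
        div_le_div_of_nonneg_right h2 (by positivity)
      have h5 : u ^ 3 / 8 / (4 * k) = c * u ^ 3 := by
        rw [hc]
        field_simp
        ring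
      linarith
    have e1 : (1 : ℝ) + n / (16 * k) = 1 + 2 * c * n := by
      rw [hc]
      field_simp
      ring
    have e2 : (1 : ℝ) + ((n + 1 : ℕ) : ℝ) / (16 * k) = 1 + 2 * c * n + 2 * c := by
      rw [hc]
      push_cast
      field_simp
      ring
    rw [e1] at ih1
    rw [e2]
    set A : ℝ := 1 + 2 * c * n with hA
    have hA0 : 0 < A := by positivity
    set t : ℝ := c * u ^ 2 with ht
    have ht0 : 0 ≤ t := by positivity
    have hu2 : u ^ 2 ≤ 1 := pow_le_one₀ hu0 ih2
    have ht1 : t ≤ 1 := by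
      calc t = c * u ^ 2 := ht
        _ ≤ 1 * 1 := mul_le_mul hc1 hu2 (by positivity) (by norm_num)
        _ = 1 := by norm_num
    have h6 : u' ≤ u * (1 - t) := by
      have : u * (1 - t) = u - c * u ^ 3 := by rw [ht]; ring
      rw [this]
      exact h3
    have h7 : u' ^ 2 ≤ u ^ 2 * (1 - t) ^ 2 := by
      have := pow_le_pow_left₀ hu'0 h6 2
      rwa [mul_pow] at this
    refine ⟨?_, ?_⟩
    · calc u' ^ 2 * (A + 2 * c) ≤ (u ^ 2 * (1 - t) ^ 2) * (A + 2 * c) :=
            mul_le_mul_of_nonneg_right h7 (by positivity)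
        _ = (1 - t) ^ 2 * (u ^ 2 * A + 2 * t) := by rw [ht]; ring
        _ ≤ (1 - t) ^ 2 * (1 + 2 * t) := by
            apply mul_le_mul_of_nonneg_left _ (sq_nonneg _)
            linarith
        _ ≤ 1 := by nlinarith [mul_nonneg ht0 ht0, mul_nonneg (mul_nonneg ht0 ht0) (sub_nonneg.2 ht1)]
    · calc u' ≤ u * (1 - t) := h6
        _ ≤ 1 * 1 := mul_le_mul ih2 (by linarith) (by linarith) (by norm_num)
        _ = 1 := by norm_num

/-- The average of a function on `G` along the lazy walk. -/
noncomputable def Avg (s : Fin k → G) : ℕ → (G → ℝ) → ℝ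
  | 0, h => h 1
  | n + 1, h => (∑ i : Fin k, (Avg s n h + Avg s n (fun g => h (s i * g)))) / (2 * k)

lemma Avg_eq {s : Fin k → G} (hk : 0 < k) (n : ℕ) (x0 : X) :
    ∀ h : X → ℝ, Avg s n (fun g => h (g • x0)) = ∑' x, h x * F s n x0 x := by
  classical
  induction n with
  | zero =>
    intro h
    show h ((1 : G) • x0) = _
    rw [one_smul, tsum_eq_single x0]
    · show h x0 = h x0 * dl x0 x0
      unfold dl
      rw [if_pos rfl, mul_one]
    · intro x hx
      show h x * dl x0 x = 0
      unfold dl
      rw [if_neg hx, mul_zero]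
  | succ n ih =>
    intro h
    have hfin := (nice_F (s := s) hk n x0).fin
    have hf1 : (Function.support (fun x => h x * F s n x0 x)).Finite := by
      refine hfin.subset ?_
      intro x hx hx0
      apply hx
      show h x * F s n x0 x = 0
      have : F s n x0 x = 0 := hx0
      rw [this, mul_zero]
    have hf2 : ∀ i : Fin k,
        (Function.support (fun x => h x * F s n x0 ((s i)⁻¹ • x))).Finite := by
      intro i
      refine (fin_shift hfin (s i)⁻¹).subset ?_
      intro x hx hx0
      apply hx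
      show h x * F s n x0 ((s i)⁻¹ • x) = 0
      have : F s n x0 ((s i)⁻¹ • x) = 0 := hx0
      rw [this, mul_zero]
    have h1 : ∀ x, h x * F s (n + 1) x0 x =
        (∑ i : Fin k, (h x * F s n x0 x + h x * F s n x0 ((s i)⁻¹ • x))) / (2 * k) := by
      intro x
      rw [F_succ]
      unfold P
      rw [← mul_div_assoc, Finset.mul_sum]
      congr 1
      apply Finset.sum_congr rfl
      intro i _
      ring
    have h2 : ∑' x, h x * F s (n + 1) x0 x =
        (∑ i : Fin k, (∑' x, h x * F s n x0 x + ∑' x, h x * F s n x0 ((s i)⁻¹ • x))) / (2 * k) := by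
      rw [tsum_congr h1, tsum_div_const, Summable.tsum_finsetSum
        (fun i _ => (summ hf1).add (summ (hf2 i)))]
      congr 1
      apply Finset.sum_congr rfl
      intro i _
      exact (summ hf1).tsum_add (summ (hf2 i))
    rw [h2]
    show (∑ i : Fin k, (Avg s n (fun g => h (g • x0)) +
      Avg s n (fun g => h ((s i * g) • x0)))) / (2 * k) = _
    congr 1
    apply Finset.sum_congr rfl
    intro i _
    rw [ih h]
    congr 1
    have h3 : (fun g : G => h ((s i * g) • x0)) = (fun g : G => (fun x => h (s i • x)) (g • x0)) := by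
      funext g
      rw [mul_smul]
    rw [h3, ih (fun x => h (s i • x))]
    have h4 := tsum_shift (fun x => h x * F s n x0 ((s i)⁻¹ • x)) (s i)
    rw [← h4]
    apply tsum_congr
    intro x
    rw [inv_smul_smul]

/-- Elements that are products of at most `n` generators. -/
def InB (s : Fin k → G) (n : ℕ) (g : G) : Prop :=
  ∃ l : List G, l.length ≤ n ∧ (∀ x ∈ l, x ∈ Set.range s) ∧ l.prod = g

lemma Avg_mono {s : Fin k → G} (n : ℕ) :
    ∀ h h' : G → ℝ, (∀ g, InB s n g → h g ≤ h' g) → Avg s n h ≤ Avg s n h' := by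
  induction n with
  | zero =>
    intro h h' hh
    exact hh 1 ⟨[], by simp, by simp, by simp⟩
  | succ n ih =>
    intro h h' hh
    show (∑ i : Fin k, (Avg s n h + Avg s n (fun g => h (s i * g)))) / (2 * k) ≤
      (∑ i : Fin k, (Avg s n h' + Avg s n (fun g => h' (s i * g)))) / (2 * k)
    apply div_le_div_of_nonneg_right _ (by positivity)
    apply Finset.sum_le_sum
    intro i _
    apply add_le_add
    · apply ih
      rintro g ⟨l, h1, h2, h3⟩
      exact hh g ⟨l, by omega, h2, h3⟩
    · apply ih
      rintro g ⟨l, h1, h2, h3⟩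
      apply hh
      refine ⟨s i :: l, by simp; omega, ?_, by simp [h3]⟩
      intro x hx
      rcases List.mem_cons.1 hx with rfl | hx
      · exact ⟨i, rfl⟩
      · exact h2 x hx

lemma Avg_const {s : Fin k → G} (hk : 0 < k) (n : ℕ) (c : ℝ) : Avg s n (fun _ => c) = c := by
  have hk0 : (0 : ℝ) < k := by exact_mod_cast hk
  induction n with
  | zero => rfl
  | succ n ih =>
    show (∑ i : Fin k, (Avg s n (fun _ => c) + Avg s n (fun _ => c))) / (2 * k) = c
    rw [ih, Finset.sum_const, Finset.card_univ, Fintype.card_fin, nsmul_eq_mul]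
    field_simp
    ring

lemma Avg_sum {s : Fin k → G} {ι : Type*} (t : Finset ι) (n : ℕ) :
    ∀ h : ι → G → ℝ, Avg s n (fun g => ∑ j ∈ t, h j g) = ∑ j ∈ t, Avg s n (h j) := by
  induction n with
  | zero => intro h; rfl
  | succ n ih =>
    intro h
    show (∑ i : Fin k, (Avg s n (fun g => ∑ j ∈ t, h j g) +
      Avg s n (fun g => ∑ j ∈ t, h j (s i * g)))) / (2 * k) = ∑ j ∈ t,
        (∑ i : Fin k, (Avg s n (h j) + Avg s n (fun g => h j (s i * g)))) / (2 * k)
    rw [← Finset.sum_div, Finset.sum_comm]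
    congr 1
    apply Finset.sum_congr rfl
    intro i _
    rw [ih h, ih (fun j g => h j (s i * g)), ← Finset.sum_add_distrib]

open Classical in
/-- The collision average is small. -/
lemma collision {s : Fin k → G} (hk : 0 < k) (hs : Subgroup.closure (Set.range s) = ⊤)
    [MulAction.IsPretransitive G X] [Infinite X] (x0 y0 : X) (n : ℕ) :
    Avg s n (fun a => Avg s n (fun b => if b • x0 = a • y0 then (1 : ℝ) else 0)) ≤
      1 / Real.sqrt (1 + n / (16 * k)) := by
  have hk1 : (1 : ℝ) ≤ k := by exact_mod_cast hk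
  have hpos : (0 : ℝ) < 1 + n / (16 * k) := by positivity
  have hbd : ∀ z : X, ∑' x, F s n z x ^ 2 ≤ 1 / Real.sqrt (1 + n / (16 * k)) := by
    intro z
    have h1 := (decay hk hs z n).1
    have hu0 : 0 ≤ ∑' x, F s n z x ^ 2 := tsum_nonneg fun x => sq_nonneg _
    rw [le_div_iff₀ (Real.sqrt_pos.2 hpos)]
    have h2 : ((∑' x, F s n z x ^ 2) * Real.sqrt (1 + n / (16 * k))) ^ 2 ≤ 1 := by
      rw [mul_pow, Real.sq_sqrt hpos.le]
      exact h1
    exact (sq_le_one_iff₀ (by positivity)).1 h2
  have h1 : ∀ a : G, Avg s n (fun b => if b • x0 = a • y0 then (1 : ℝ) else 0) =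
      F s n x0 (a • y0) := by
    intro a
    rw [Avg_eq hk n x0 (fun x => if x = a • y0 then (1 : ℝ) else 0), tsum_eq_single (a • y0)]
    · rw [if_pos rfl, one_mul]
    · intro x hx
      rw [if_neg hx, zero_mul]
  have h2 : (fun a => Avg s n (fun b => if b • x0 = a • y0 then (1 : ℝ) else 0)) =
      (fun a : G => F s n x0 (a • y0)) := funext h1
  rw [h2, Avg_eq hk n y0 (F s n x0)]
  have hx := nice_F (s := s) hk n x0
  have hy := nice_F (s := s) hk n y0
  have h3 : ∀ x, F s n x0 x * F s n y0 x ≤ (F s n x0 x ^ 2 + F s n y0 x ^ 2) / 2 := by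
    intro x
    nlinarith [sq_nonneg (F s n x0 x - F s n y0 x)]
  have hf1 : (Function.support (fun x => F s n x0 x * F s n y0 x)).Finite := by
    refine hx.fin.subset ?_
    intro x hx1 hx0
    apply hx1
    show F s n x0 x * F s n y0 x = 0
    have : F s n x0 x = 0 := hx0
    rw [this, zero_mul]
  have h4 := (summ hf1).tsum_le_tsum h3
    (((summ (fin_sq hx.fin)).add (summ (fin_sq hy.fin))).div_const 2)
  rw [tsum_div_const, (summ (fin_sq hx.fin)).tsum_add (summ (fin_sq hy.fin))] at h4
  have h5 := hbd x0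
  have h6 := hbd y0
  linarith

end walk

end Pool.Agent.TH96.CC
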